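import Mathlib
import Pool.Agent.Lib.helper12.Six
import Pool.Agent.Lib.helper12.Real

namespace Pool.Agent.Results.MP_6d0c2f_al.Super

open Pool.Agent.Lib.helper12.Six Pool.Agent.Lib.helper12.Real Filter

abbrev V := (ℕ → Bool) → A ℚ

def n : ℕ → V
  | 0 => fun _ => mk 0 1 0 0 0 0
  | 1 => fun _ => mk 0 0 1 0 0 0
  | _ => fun _ => mk 0 0 0 1 0 0

def e (j : ℕ) : V := fun ω => if ω j then 1 else 0

def R : Subring V := Subring.closure (Set.range n ∪ Set.range e)

lemma nil (j : ℕ) : IsNilpotent (n j) := by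
  refine ⟨2, ?_⟩
  funext ω
  rcases j with _ | _ | j <;> simp [n, pow_two, mk_mul, zero_eq]

lemma idem (j : ℕ) : e j * e j = e j := by
  funext ω; by_cases h : ω j <;> simp [e, h]

lemma ecomm (j : ℕ) (v : V) : e j * v = v * e j := by
  funext ω; by_cases h : ω j <;> simp [e, h]

lemma nR (j : ℕ) : n j ∈ R := Subring.subset_closure (Or.inl ⟨j, rfl⟩)
lemma eR (j : ℕ) : e j ∈ R := Subring.subset_closure (Or.inr ⟨j, rfl⟩)

lemma int {r : V} (hr : r ∈ R) (ω : ℕ → Bool) : ∃ a b c d e f : ℤ,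
    r ω = mk (a : ℚ) (b : ℚ) (c : ℚ) (d : ℚ) (e : ℚ) (f : ℚ) := by
  induction hr using Subring.closure_induction with
  | mem x hx =>
    rcases hx with ⟨j, rfl⟩ | ⟨j, rfl⟩
    · rcases j with _ | _ | j
      · exact ⟨0, 1, 0, 0, 0, 0, by simp [n]⟩
      · exact ⟨0, 0, 1, 0, 0, 0, by simp [n]⟩
      · exact ⟨0, 0, 0, 1, 0, 0, by simp [n]⟩
    · by_cases h : ω j
      · exact ⟨1, 0, 0, 0, 0, 0, by simp [e, h, one_eq]⟩
      · exact ⟨0, 0, 0, 0, 0, 0, by simp [e, h, zero_eq]⟩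
  | zero => exact ⟨0, 0, 0, 0, 0, 0, by simp [zero_eq]⟩
  | one => exact ⟨1, 0, 0, 0, 0, 0, by simp [one_eq]⟩
  | add x y _ _ hx hy =>
    obtain ⟨a, b, c, d, e, f, hx⟩ := hx
    obtain ⟨a', b', c', d', e', f', hy⟩ := hy
    exact ⟨a + a', b + b', c + c', d + d', e + e', f + f', by simp [hx, hy, mk_add]⟩
  | neg x _ hx =>
    obtain ⟨a, b, c, d, e, f, hx⟩ := hx
    exact ⟨-a, -b, -c, -d, -e, -f, by rw [Pi.neg_apply, hx]; push_cast; rfl⟩
  | mul x y _ _ hx hy =>
    obtain ⟨a, b, c, d, e, f, hx⟩ := hx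
    obtain ⟨a', b', c', d', e', f', hy⟩ := hy
    exact ⟨a * a', a * b' + b * a', a * c' + c * a', a * d' + d * a',
      a * e' + e * a' + b * c' + d * b' + b * d', a * f' + f * a' + d * c' + c * d',
      by simp [hx, hy, mk_mul]⟩

lemma redQ (q : ℚ) (h : ∃ᶠ p : ℕ in atTop, ∃ z : ℤ, q = p * z) : q = 0 := by
  obtain ⟨p, ⟨z, rfl⟩, hp⟩ := (h.and_eventually (tendsto_natCast_atTop_atTop (R := ℚ)
    |>.eventually_gt_atTop |q|)).exists
  by_contra h0
  have hz : z ≠ 0 := by rintro rfl; simp at h0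
  have : (1 : ℚ) ≤ |(z : ℚ)| := by exact_mod_cast Int.one_le_abs hz
  rw [abs_mul, Nat.abs_cast] at hp
  nlinarith [Nat.cast_nonneg (α := ℚ) p]

lemma hred : Red R := by
  intro v h
  funext ω
  show v ω = 0
  generalize hv : v ω = u
  induction u using ind with
  | h a b c d e f =>
  have h' : ∃ᶠ p : ℕ in atTop, ∃ a' b' c' d' e' f' : ℤ, a = p * a' ∧ b = p * b' ∧ c = p * c' ∧
      d = p * d' ∧ e = p * e' ∧ f = p * f' := h.mono (by
    rintro p ⟨-, r, hr, h⟩
    obtain ⟨a', b', c', d', e', f', h2⟩ := int hr ω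
    rw [h, Pi.smul_apply, h2, ← Nat.cast_smul_eq_nsmul ℚ, smul_mk, eq_comm, mk_inj] at hv
    exact ⟨a', b', c', d', e', f', hv⟩)
  rw [zero_eq, mk_inj]
  refine ⟨redQ _ (h'.mono ?_), redQ _ (h'.mono ?_), redQ _ (h'.mono ?_), redQ _ (h'.mono ?_),
    redQ _ (h'.mono ?_), redQ _ (h'.mono ?_)⟩ <;>
  · rintro p ⟨a', b', c', d', e', f', h1, h2, h3, h4, h5, h6⟩
    exact ⟨_, by assumption⟩

lemma fin {r : V} (hr : r ∈ R) : ∀ᶠ j in atTop, ∀ ω b, r (Function.update ω j b) = r ω := by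
  induction hr using Subring.closure_induction with
  | mem x hx =>
    rcases hx with ⟨j, rfl⟩ | ⟨j, rfl⟩
    · rcases j with _ | _ | j <;> simp [n]
    · filter_upwards [eventually_gt_atTop j] with i hi ω b
      simp [e, Function.update_of_ne hi.ne]
  | zero => simp
  | one => simp
  | add x y _ _ hx hy => filter_upwards [hx, hy] with j h1 h2 ω b; simp [h1, h2]
  | neg x _ hx => filter_upwards [hx] with j h1 ω b; simp [h1]
  | mul x y _ _ hx hy => filter_upwards [hx, hy] with j h1 h2 ω b; simp [h1, h2]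

lemma split {v : V} (hv : v ∈ rat R) (h0 : v ≠ 0) : ∃ j, e j * v ≠ 0 ∧ (1 - e j) * v ≠ 0 := by
  obtain ⟨m, hm, h⟩ := hv
  obtain ⟨j, hj⟩ := (fin h).exists
  obtain ⟨ω, hω⟩ := Function.ne_iff.mp h0
  have : ∀ b, v (Function.update ω j b) ≠ 0 := by
    intro b hb
    have := hj ω b
    rw [Pi.smul_apply, hb, smul_zero] at this
    exact hω (tf hm this.symm)
  exact ⟨j, fun h => this true (by simpa [e] using congrFun h (Function.update ω j true)),
    fun h => this false (by simpa [e] using congrFun h (Function.update ω j false))⟩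

theorem result : ∃ (G : Type) (_ : AddCommGroup G),
    (∀ B C : AddSubgroup G, IsCompl B C → B ≠ ⊥ →
      ∃ B₁ B₂ : AddSubgroup G, B₁ ≠ ⊥ ∧ B₂ ≠ ⊥ ∧ Disjoint B₁ B₂ ∧ B₁ ⊔ B₂ = B) ∧
    (∃ φ ψ : AddMonoid.End G, φ * ψ ≠ ψ * φ) ∧
    (∀ a : AddMonoid.End G, a ≠ 0 → ∃ x ∈ Subring.center (AddMonoid.End G),
      ∃ y ∈ Subring.center (AddMonoid.End G), x ≠ 0 ∧ y ≠ 0 ∧ a * x = y) := by
  obtain ⟨G, ev, h1, hrat, hinj, hev, hsur, happ⟩ := realize (R := R) n e nil idem rfl hred
  refine ⟨G, inferInstance, ?_, ?_, ?_⟩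
  · intro B C hBC hB
    have H : ∀ g : G, g ∈ B ⊔ C := fun g => by rw [hBC.sup_eq_top]; trivial
    have hd := hBC.disjoint
    simp only [AddSubgroup.mem_sup] at H
    choose b hb c hc hbc using H
    have uniq : ∀ g, ∀ x ∈ B, ∀ y ∈ C, x + y = g → b g = x := by
      intro g x hx y hy h
      have h2 : b g - x = y - c g := by
        rw [sub_eq_sub_iff_add_eq_add, hbc, ← h, add_comm]
      have := AddSubgroup.disjoint_def.mp hd (sub_mem (hb g) hx) (h2 ▸ sub_mem hy (hc g))
      exact sub_eq_zero.mp this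
    let φ : AddMonoid.End G := AddMonoidHom.mk' b (fun x y =>
      uniq _ _ (add_mem (hb x) (hb y)) _ (add_mem (hc x) (hc y)) (by
        conv_rhs => rw [← hbc x, ← hbc y]
        abel))
    have hB' : ∀ x ∈ B, φ x = x := fun x hx => uniq _ _ hx 0 (zero_mem _) (add_zero _)
    obtain ⟨⟨x, hx⟩, hx0⟩ := (AddSubgroup.ne_bot_iff_exists_ne_zero).mp hB
    have hx1 : (x : V) ≠ 0 := fun h => hx0 (Subtype.ext (Subtype.ext h))
    obtain ⟨j, j1, j2⟩ := split (hrat x.2) hx1
    obtain ⟨ε, hε⟩ := hsur _ (eR j)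
    have hc' : φ * ε = ε * φ := hinj (by rw [map_mul, map_mul, hε, ecomm])
    have hi : ε * ε = ε := hinj (by rw [map_mul, hε, idem])
    have hm : ∀ y ∈ B, ε y ∈ B := by
      intro y hy
      have : φ (ε y) = ε (φ y) := DFunLike.congr_fun hc' y
      rw [hB' y hy] at this
      rw [← this]; exact hb _
    have hii : ∀ y, ε (ε y) = ε y := fun y => DFunLike.congr_fun hi y
    refine ⟨B ⊓ AddMonoidHom.ker (1 - ε : AddMonoid.End G), B ⊓ AddMonoidHom.ker ε, ?_, ?_, ?_, ?_⟩
    · rw [AddSubgroup.ne_bot_iff_exists_ne_zero]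
      refine ⟨⟨ε x, hm x hx, ?_⟩, fun h => j1 ?_⟩
      · show ε x - ε (ε x) = 0
        rw [hii, sub_self]
      · rw [← hε, ← happ]
        exact congrArg (fun z => ((z.1 : G) : V)) h
    · rw [AddSubgroup.ne_bot_iff_exists_ne_zero]
      refine ⟨⟨x - ε x, B.sub_mem hx (hm x hx), ?_⟩, fun h => j2 ?_⟩
      · show ε (x - ε x) = 0
        rw [map_sub, hii, sub_self]
      · rw [sub_mul, one_mul, ← hε, ← happ]
        exact congrArg (fun z => ((z.1 : G) : V)) h
    · rw [AddSubgroup.disjoint_def]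
      rintro y ⟨-, h1⟩ ⟨-, h2⟩
      have h1' : y - ε y = 0 := h1
      have h2' : ε y = 0 := h2
      simpa [h2'] using h1'
    · refine le_antisymm (sup_le inf_le_left inf_le_left) (fun y hy => ?_)
      rw [AddSubgroup.mem_sup]
      refine ⟨ε y, ⟨hm y hy, ?_⟩, y - ε y, ⟨B.sub_mem hy (hm y hy), ?_⟩, by abel⟩
      · show ε y - ε (ε y) = 0
        rw [hii, sub_self]
      · show ε (y - ε y) = 0
        rw [map_sub, hii, sub_self]
  · obtain ⟨φ, hφ⟩ := hsur _ (nR 0)
    obtain ⟨ψ, hψ⟩ := hsur _ (nR 1)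
    refine ⟨φ, ψ, fun h => ?_⟩
    have := congrFun (congrArg ev h) (fun _ => true)
    simp [hφ, hψ, n, mk_mul, mk_inj] at this
  · refine ce_of (R := R) ev hinj (fun φ => hrat (hev φ)) hsur ?_
    intro v _ hv
    have cm : ∀ u : V, (∀ ω, (u ω).2.1 = 0 ∧ (u ω).2.2.1 = 0) → ∀ r ∈ R, u * r = r * u := by
      intro u hu r _
      funext ω
      have h := hu ω
      simp only [Pi.mul_apply]
      generalize u ω = z at *
      induction z using ind with
      | h a b c d e f =>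
      obtain ⟨rfl, rfl⟩ : b = 0 ∧ c = 0 := h
      exact (Subring.mem_center_iff.mp (cen a d e f) _).symm
    have hw : (fun _ => mk 0 0 0 0 0 1 : V) ∈ R := by
      have := mul_mem (nR 2) (nR 1)
      convert this using 1
      funext ω; simp [n, mk_mul]
    by_cases ha : ∀ ω, (v ω).1 = 0
    · by_cases hb : ∀ ω, (v ω).2.1 = 0 ∧ (v ω).2.2.1 = 0
      · exact ⟨1, one_mem _, by simp, by simpa using hv, by simpa using cm _ hb⟩
      · refine ⟨n 2, nR 2, cm _ (fun _ => ⟨rfl, rfl⟩), fun h => hb (fun ω => ?_), cm _ ?_⟩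
        · have h1 := congrFun h ω
          have h2 := ha ω
          simp only [Pi.mul_apply, n, Pi.zero_apply] at h1
          generalize v ω = z at *
          induction z using ind with
          | h a b c d e f =>
          show b = 0 ∧ c = 0
          simpa [mk_mul, zero_eq, mk_inj, show a = 0 from h2] using h1
        · intro ω
          simp only [Pi.mul_apply, n]
          generalize v ω = z at *
          induction z using ind with
          | h a b c d e f => simp only [mk_mul, mul_zero, add_zero]; exact ⟨rfl, rfl⟩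
    · refine ⟨_, hw, cm _ (fun _ => ⟨rfl, rfl⟩), fun h => ha (fun ω => ?_), cm _ ?_⟩
      · have h1 := congrFun h ω
        simp only [Pi.mul_apply, Pi.zero_apply] at h1
        generalize v ω = z at *
        induction z using ind with
        | h a b c d e f =>
        show a = 0
        simpa [mk_mul, zero_eq, mk_inj] using h1
      · intro ω
        simp only [Pi.mul_apply]
        generalize v ω = z at *
        induction z using ind with
        | h a b c d e f => simp only [mk_mul, mul_zero, add_zero]; exact ⟨rfl, rfl⟩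

end Pool.Agent.Results.MP_6d0c2f_al.Super
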